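import Mathlib
import Pool.Agent.Helper53.CTR.Goals

/-!
# Project CTR, packet KX: frame and exactness, one level up
-/

namespace Pool.Agent.Helper78.CTR

open Pool.Agent.Helper1.TE (Gad app Ch cif)
open Pool.Agent.Helper53.CTR
open Finset

section
variable {Z : Type} {g : Gad Z} {tst : ℕ → ℕ} {r : ℕ → ℕ → ℕ → ℕ} {q c : ℕ}

theorem app_V (h : OK6 g) {T v : ℕ} (hv : v < g.K) {z z' : Z} (hz : g.V z)
    (ha : app g tst T v z = some z') : g.V z' := by
  unfold app at ha
  split_ifs at ha with h1 h2 h3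
  · cases ha
    exact hz
  · cases ha
    exact h.hd_V v hv z hz
  · exact h.un_V v hv z z' hz ha

theorem shl_V (h : OK6 g) : ∀ (l : List ℕ), (∀ a ∈ l, a < g.K) → ∀ z, g.V z → g.V (shl g l z)
  | [], _, z, hz => hz
  | a :: l, hl, z, hz => by
    have h1 := shl_V h l (fun b hb => hl b (List.mem_cons_of_mem _ hb)) (g.sh a z)
      (h.sh_V a (hl a List.mem_cons_self) z hz)
    exact h1

theorem shl_append (l l' : List ℕ) (z : Z) : shl g (l ++ l') z = shl g l' (shl g l z) := by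
  unfold shl
  rw [List.foldl_append]

theorem shl_cons (a : ℕ) (l : List ℕ) (z : Z) : shl g (a :: l) z = shl g l (g.sh a z) := rfl

theorem shl_nil (z : Z) : shl g [] z = z := rfl

/-- elementary steps of the kind 3 -/
theorem ph3 (hE : Elem) (hK : 1 ≤ g.K) {e T n : ℕ} {C : ℕ → Z} {A : ℕ} {s' : (ℕ → Z) × ℕ}
    (h : Run g tst r q c (3, e, 0, 0, e + 2, T) n (C, A) s') :
    ∃ a < g.K, ∃ z, app g tst T a (C (e + 2)) = some z ∧ s'.2 = A ∧
      s'.1 e = g.sh a (C e) ∧ s'.1 (e + 2) = z ∧ ∀ j, j ≠ e → j ≠ e + 2 → s'.1 j = C j := by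
  obtain ⟨a, ha, y, hy, h1⟩ := (hE.1 g tst r q c _ n _ _ hK (Or.inr (by
    change (3 : ℕ) ≠ 0
    norm_num))).1 h
  have h2 : (app g tst T a (C (e + 2))).map (fun z =>
      ((Function.update (Function.update C e (g.sh a (C e))) (e + 2) z, A) : (ℕ → Z) × ℕ)) =
      some s' := h1
  rw [Option.map_eq_some_iff] at h2
  obtain ⟨z, hz, rfl⟩ := h2
  refine ⟨a, ha, z, hz, rfl, ?_, ?_, ?_⟩
  · change Function.update (Function.update C e (g.sh a (C e))) (e + 2) z e = _
    rw [Function.update_of_ne (by omega), Function.update_self]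
  · exact Function.update_self _ _ _
  · intro j h3 h4
    change Function.update (Function.update C e (g.sh a (C e))) (e + 2) z j = _
    rw [Function.update_of_ne h4, Function.update_of_ne h3]

/-- elementary steps of the kind 4 -/
theorem ph4 (hE : Elem) (hK : 1 ≤ g.K) {e v T n : ℕ} {C : ℕ → Z} {A : ℕ} {s' : (ℕ → Z) × ℕ}
    (h : Run g tst r q c (4, e, e + 1, v, e + 2, T) n (C, A) s') :
    ∃ a < g.K, ∃ y < g.K, ∃ z, app g tst T (r v a y) (C (e + 2)) = some z ∧ s'.2 = A ∧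
      s'.1 e = g.sh a (C e) ∧ s'.1 (e + 1) = shl g (List.replicate 3 y) (C (e + 1)) ∧
      s'.1 (e + 2) = z ∧ ∀ j, j ≠ e → j ≠ e + 1 → j ≠ e + 2 → s'.1 j = C j := by
  obtain ⟨a, ha, y, hy, h1⟩ := (hE.1 g tst r q c _ n _ _ hK (Or.inr (by
    change (4 : ℕ) ≠ 0
    norm_num))).1 h
  have h2 : (app g tst T (r v a y) (C (e + 2))).map (fun z =>
      ((Function.update (Function.update (Function.update C e (g.sh a (C e))) (e + 1)
        (shl g (List.replicate 3 y) (C (e + 1)))) (e + 2) z, A) : (ℕ → Z) × ℕ)) =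
      some s' := h1
  rw [Option.map_eq_some_iff] at h2
  obtain ⟨z, hz, rfl⟩ := h2
  refine ⟨a, ha, y, hy, z, hz, rfl, ?_, ?_, ?_, ?_⟩
  · change Function.update (Function.update (Function.update C e (g.sh a (C e))) (e + 1)
        (shl g (List.replicate 3 y) (C (e + 1)))) (e + 2) z e = _
    rw [Function.update_of_ne (by omega), Function.update_of_ne (by omega),
      Function.update_self]
  · change Function.update (Function.update (Function.update C e (g.sh a (C e))) (e + 1)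
        (shl g (List.replicate 3 y) (C (e + 1)))) (e + 2) z (e + 1) = _
    rw [Function.update_of_ne (by omega), Function.update_self]
  · exact Function.update_self _ _ _
  · intro j h3 h4 h5
    change Function.update (Function.update (Function.update C e (g.sh a (C e))) (e + 1)
        (shl g (List.replicate 3 y) (C (e + 1)))) (e + 2) z j = _
    rw [Function.update_of_ne h5, Function.update_of_ne h4, Function.update_of_ne h3]

/-- a list of length 6 with equal elements -/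
theorem eq_rep {l : List ℕ} {x : ℕ} (hl : l.length = 6) (h : ∀ a ∈ l, a = x) :
    l = List.replicate 6 x := by
  rw [List.eq_replicate_iff]
  exact ⟨hl, h⟩

/-- undoing after six guesses -/
theorem undo (hg : OK6 g) {p : ℕ} (hp : p < g.K) {l : List ℕ} (hl : l.length = 6)
    (hlK : ∀ a ∈ l, a < g.K) {z z' : Z} (hz : g.V z)
    (h : g.un p (shl g l (g.hd p z)) = some z') : (∀ a ∈ l, a = p) ∧ z' = z := by
  have h1 := hg.sound6 p hp l hl hlK z hz (by rw [h]; rfl)
  refine ⟨h1, ?_⟩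
  have h2 := hg.ok6 p hp z hz
  rw [← eq_rep hl h1, h] at h2
  exact Option.some.inj h2

end

theorem seg_lt {K : ℕ} {r : ℕ → ℕ → ℕ → ℕ} {bot : ℕ → ℕ → ℕ} (hb : ∀ w y, bot w y < K) :
    ∀ u v x : ℕ, seg r bot u v x < K
  | 0, v, x => hb v x
  | u + 1, v, x => seg_lt hb u _ _

theorem allV3 {Z : Type} {g : Gad Z} {C C' : ℕ → Z} {e : ℕ} (hV : ∀ j, g.V (C j))
    (h1 : g.V (C' e)) (h2 : g.V (C' (e + 2))) (h : ∀ j, j ≠ e → j ≠ e + 2 → C' j = C j) (j : ℕ) :
    g.V (C' j) := by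
  by_cases a : j = e
  · rw [a]
    exact h1
  by_cases b : j = e + 2
  · rw [b]
    exact h2
  rw [h j a b]
  exact hV j

theorem allV4 {Z : Type} {g : Gad Z} {C C' : ℕ → Z} {e : ℕ} (hV : ∀ j, g.V (C j))
    (h1 : g.V (C' e)) (h3 : g.V (C' (e + 1))) (h2 : g.V (C' (e + 2)))
    (h : ∀ j, j ≠ e → j ≠ e + 1 → j ≠ e + 2 → C' j = C j) (j : ℕ) :
    g.V (C' j) := by
  by_cases a : j = e
  · rw [a]
    exact h1
  by_cases b : j = e + 2
  · rw [b]
    exact h2
  by_cases c : j = e + 1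
  · rw [c]
    exact h3
  rw [h j a c b]
  exact hV j

/-- **Packet KX.** -/
theorem gKX : GoalKX := by
  intro hB hE Z g hg tst r q c m u hr _ huq hKX v i T C A s' hV hi hrun
  set e : ℕ := 2 * (q - (u + 1)) with he
  have he2 : 2 * (q - u) = e + 2 := by omega
  have hK : 1 ≤ g.K := hg.K_pos
  have hie : i ≠ e ∧ i ≠ e + 1 ∧ i ≠ e + 2 := by
    rcases hi with h | h <;> omega
  have hi' : i < e + 2 ∨ i = 2 * q + 1 + (m + 1) % 2 := by
    rcases hi with h | h
    · left
      omega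
    · exact Or.inr h
  have KX' : ∀ (v i T : ℕ) (C : ℕ → Z) (A : ℕ) (s' : (ℕ → Z) × ℕ),
      (∀ j, g.V (C j)) → (i < e + 2 ∨ i = 2 * q + 1 + (m + 1) % 2) →
      Run g tst r q c (nod v i T) ((q + 2) * m + (u + 1)) (C, A) s' →
      s'.2 = A ∧ (∀ j, g.V (s'.1 j)) ∧ (∀ j < e + 2, j ≠ i → s'.1 j = C j) ∧
      ∃ l : List ℕ, l.length = 6 ∧ (∀ a ∈ l, a < g.K) ∧
        s'.1 (e + 2) = shl g l (C (e + 2)) ∧
        ∀ x < g.K, (∀ a ∈ l, a = x) → ∃ z,
          app g tst T (seg r (botV r q c m) u v x) (C i) = some z ∧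
          s'.1 = Function.update (Function.update C i z) (e + 2) (shl g l (C (e + 2))) := by
    intro v i T C A s' h1 h2 h3
    have h4 := hKX v i T C A s' h1 (by rw [he2]; exact h2) h3
    rw [he2] at h4
    exact h4
  have hrun' : Run g tst r q c (nod v i T) ((q + 2) * m + (u + 1) + 1) (C, A) s' := hrun
  obtain ⟨f, hf0, hf9, hf⟩ := (hB g tst r q c _ _ _ _).1 hrun'
  have hsub : ∀ d, sub q (nod v i T) ((q + 2) * m + (u + 1)) d = phK e v i T d := fun d =>
    hE.2.1 q m u v i T d huq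
  simp only [hsub] at hf
  have shV : ∀ a < g.K, ∀ z, g.V z → g.V (g.sh a z) := hg.sh_V
  -- phase 0
  have r0 : Run g tst r q c (3, e, 0, 0, e + 2, 1) ((q + 2) * m + (u + 1)) (C, A) (f 1) := by
    have := hf 0 (by norm_num)
    rw [hf0] at this
    exact this
  obtain ⟨a0, ha0, z0, k0, b0, c0e, c0z, c0⟩ := ph3 hE hK r0
  have V1 : ∀ j, g.V ((f 1).1 j) := allV3 hV (by rw [c0e]; exact shV a0 ha0 _ (hV _))
    (by rw [c0z]; exact app_V hg ha0 (hV _) k0) c0
  have k0' : z0 = g.hd a0 (C (e + 2)) := (Option.some.inj k0).symm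
  -- phase 1
  have r1 : Run g tst r q c (nod (2 * v) (e + 1) 1) ((q + 2) * m + (u + 1))
      ((f 1).1, (f 1).2) (f 2) := hf 1 (by norm_num)
  obtain ⟨b1, V2, fr1, l1, l1n, l1K, c1z, ex1⟩ := KX' _ _ _ _ _ _ V1 (Or.inl (by omega)) r1
  -- phase 2
  have r2 : Run g tst r q c (3, e, 0, 0, e + 2, 2) ((q + 2) * m + (u + 1))
      ((f 2).1, (f 2).2) (f 3) := hf 2 (by norm_num)
  obtain ⟨a2, ha2, z2, k2, b2, c2e, c2z, c2⟩ := ph3 hE hK r2
  have V3 : ∀ j, g.V ((f 3).1 j) := allV3 V2 (by rw [c2e]; exact shV a2 ha2 _ (V2 _))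
    (by rw [c2z]; exact app_V hg ha2 (V2 _) k2) c2
  -- phase 3
  have r3 : Run g tst r q c (4, e, e + 1, v, e + 2, 1) ((q + 2) * m + (u + 1))
      ((f 3).1, (f 3).2) (f 4) := hf 3 (by norm_num)
  obtain ⟨a3, ha3, y3, hy3, z3, k3, b3, c3e, c3f, c3z, c3⟩ := ph4 hE hK r3
  have y3K : ∀ a ∈ List.replicate 3 y3, a < g.K := fun a ha => by
    rw [List.eq_of_mem_replicate ha]
    exact hy3
  have V4 : ∀ j, g.V ((f 4).1 j) := allV4 V3 (by rw [c3e]; exact shV a3 ha3 _ (V3 _))
    (by rw [c3f]; exact shl_V hg _ y3K _ (V3 _))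
    (by rw [c3z]; exact app_V hg (hr _ _ _) (V3 _) k3) c3
  have k3' : z3 = g.hd (r v a3 y3) ((f 3).1 (e + 2)) := (Option.some.inj k3).symm
  -- phase 4
  have r4 : Run g tst r q c (nod (2 * v + 1) i T) ((q + 2) * m + (u + 1))
      ((f 4).1, (f 4).2) (f 5) := hf 4 (by norm_num)
  obtain ⟨b4, V5, fr4, l4, l4n, l4K, c4z, ex4⟩ := KX' _ _ _ _ _ _ V4 hi' r4
  -- phase 5
  have r5 : Run g tst r q c (4, e, e + 1, v, e + 2, 2) ((q + 2) * m + (u + 1))
      ((f 5).1, (f 5).2) (f 6) := hf 5 (by norm_num)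
  obtain ⟨a5, ha5, y5, hy5, z5, k5, b5, c5e, c5f, c5z, c5⟩ := ph4 hE hK r5
  have y5K : ∀ a ∈ List.replicate 3 y5, a < g.K := fun a ha => by
    rw [List.eq_of_mem_replicate ha]
    exact hy5
  have V6 : ∀ j, g.V ((f 6).1 j) := allV4 V5 (by rw [c5e]; exact shV a5 ha5 _ (V5 _))
    (by rw [c5f]; exact shl_V hg _ y5K _ (V5 _))
    (by rw [c5z]; exact app_V hg (hr _ _ _) (V5 _) k5) c5
  -- phase 6
  have r6 : Run g tst r q c (3, e, 0, 0, e + 2, 1) ((q + 2) * m + (u + 1))
      ((f 6).1, (f 6).2) (f 7) := hf 6 (by norm_num)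
  obtain ⟨a6, ha6, z6, k6, b6, c6e, c6z, c6⟩ := ph3 hE hK r6
  have V7 : ∀ j, g.V ((f 7).1 j) := allV3 V6 (by rw [c6e]; exact shV a6 ha6 _ (V6 _))
    (by rw [c6z]; exact app_V hg ha6 (V6 _) k6) c6
  have k6' : z6 = g.hd a6 ((f 6).1 (e + 2)) := (Option.some.inj k6).symm
  -- phase 7
  have r7 : Run g tst r q c (nod (2 * v) (e + 1) 2) ((q + 2) * m + (u + 1))
      ((f 7).1, (f 7).2) (f 8) := hf 7 (by norm_num)
  obtain ⟨b7, V8, fr7, l7, l7n, l7K, c7z, ex7⟩ := KX' _ _ _ _ _ _ V7 (Or.inl (by omega)) r7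
  -- phase 8
  have r8 : Run g tst r q c (3, e, 0, 0, e + 2, 2) ((q + 2) * m + (u + 1))
      ((f 8).1, (f 8).2) s' := by
    have := hf 8 (by norm_num)
    rw [hf9] at this
    exact this
  obtain ⟨a8, ha8, z8, k8, b8, c8e, c8z, c8⟩ := ph3 hE hK r8
  have V9 : ∀ j, g.V (s'.1 j) := allV3 V8 (by rw [c8e]; exact shV a8 ha8 _ (V8 _))
    (by rw [c8z]; exact app_V hg ha8 (V8 _) k8) c8
  have hE9 : s'.1 e = shl g [a0, a2, a3, a5, a6, a8] (C e) := by
    rw [c8e, fr7 e (by omega) (by omega), c6e, c5e, fr4 e (by omega) (Ne.symm hie.1), c3e, c2e,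
      fr1 e (by omega) (by omega), c0e]
    rfl
  refine ⟨by rw [b8, b7, b6, b5, b4, b3, b2, b1, b0], V9, ?_, [a0, a2, a3, a5, a6, a8], rfl, ?_,
    hE9, ?_⟩
  · intro j hj hji
    rw [c8 j (by omega) (by omega), fr7 j (by omega) (by omega), c6 j (by omega) (by omega),
      c5 j (by omega) (by omega) (by omega), fr4 j (by omega) hji,
      c3 j (by omega) (by omega) (by omega), c2 j (by omega) (by omega),
      fr1 j (by omega) (by omega), c0 j (by omega) (by omega)]
  · intro a ha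
    simp only [List.mem_cons, List.not_mem_nil, or_false] at ha
    rcases ha with rfl | rfl | rfl | rfl | rfl | rfl <;> assumption
  · intro x hx hl
    have e0 : a0 = x := hl a0 (by simp)
    have e2 : a2 = x := hl a2 (by simp)
    have e3 : a3 = x := hl a3 (by simp)
    have e5 : a5 = x := hl a5 (by simp)
    have e6 : a6 = x := hl a6 (by simp)
    have e8 : a8 = x := hl a8 (by simp)
    set y0 : ℕ := seg r (botV r q c m) u (2 * v) x with hy0
    have hy0K : y0 < g.K := seg_lt (fun w y => hr _ _ _) u (2 * v) x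
    -- phases 0, 1, 2
    have u2 : g.un a2 ((f 2).1 (e + 2)) = some z2 := k2
    rw [e2, c1z, c0z, k0', e0] at u2
    obtain ⟨al1, ez2⟩ := undo hg hx l1n l1K (hV _) u2
    obtain ⟨w1, kw1, C2⟩ := ex1 x hx al1
    have kw1' : w1 = g.hd y0 ((f 1).1 (e + 1)) := (Option.some.inj kw1).symm
    rw [c0 (e + 1) (by omega) (by omega)] at kw1'
    have d2 : ∀ j, j ≠ e + 1 → j ≠ e + 2 → (f 2).1 j = (f 1).1 j := by
      intro j h1 h2
      rw [C2, Function.update_of_ne h2, Function.update_of_ne h1]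
    have d2' : (f 2).1 (e + 1) = g.hd y0 (C (e + 1)) := by
      rw [C2, Function.update_of_ne (by omega), Function.update_self, kw1']
    have d3' : (f 3).1 (e + 1) = g.hd y0 (C (e + 1)) := by
      rw [c2 (e + 1) (by omega) (by omega), d2']
    have d3 : (f 3).1 (e + 2) = C (e + 2) := by rw [c2z, ez2]
    -- phases 6, 7, 8
    have u8 : g.un a8 ((f 8).1 (e + 2)) = some z8 := k8
    rw [e8, c7z, c6z, k6', e6] at u8
    obtain ⟨al7, ez8⟩ := undo hg hx l7n l7K (V6 _) u8
    obtain ⟨w7, kw7, C8⟩ := ex7 x hx al7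
    have u7 : g.un y0 ((f 7).1 (e + 1)) = some w7 := kw7
    rw [c6 (e + 1) (by omega) (by omega), c5f, fr4 (e + 1) (by omega) (Ne.symm hie.2.1), c3f,
      d3', ← shl_append] at u7
    have hln : (List.replicate 3 y3 ++ List.replicate 3 y5).length = 6 := rfl
    have hlK : ∀ a ∈ List.replicate 3 y3 ++ List.replicate 3 y5, a < g.K := by
      intro a ha
      rcases List.mem_append.1 ha with h | h
      · exact y3K a h
      · exact y5K a h
    obtain ⟨aly, ew7⟩ := undo hg hy0K hln hlK (hV _) u7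
    have ey3 : y3 = y0 := aly y3 (by simp)
    have ey5 : y5 = y0 := aly y5 (by simp)
    -- phases 3, 4, 5
    have u5 : g.un (r v a5 y5) ((f 5).1 (e + 2)) = some z5 := k5
    rw [c4z, c3z, k3', e3, e5, ey3, ey5] at u5
    obtain ⟨al4, ez5⟩ := undo hg (hr v x y0) l4n l4K (V3 _) u5
    obtain ⟨w4, kw4, C5⟩ := ex4 _ (hr v x y0) al4
    have d4i : (f 4).1 i = C i := by
      rw [c3 i hie.1 hie.2.1 hie.2.2, c2 i hie.1 hie.2.2, d2 i hie.2.1 hie.2.2,
        c0 i hie.1 hie.2.2]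
    refine ⟨w4, ?_, ?_⟩
    · rw [d4i] at kw4
      exact kw4
    · funext j
      by_cases h1 : j = e
      · rw [h1, Function.update_self]
        exact hE9
      rw [Function.update_of_ne h1]
      by_cases h2 : j = e + 2
      · rw [h2, Function.update_of_ne (Ne.symm hie.2.2), c8z, ez8, c5z, ez5, d3]
      by_cases h3 : j = e + 1
      · rw [h3, Function.update_of_ne (Ne.symm hie.2.1), c8 (e + 1) (by omega) (by omega), C8,
          Function.update_of_ne (by omega), Function.update_self, ew7]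
      rw [c8 j h1 h2, C8, Function.update_of_ne h2, Function.update_of_ne h3, c6 j h1 h2,
        c5 j h1 h3 h2, C5, Function.update_of_ne h2]
      by_cases h4 : j = i
      · rw [h4, Function.update_self, Function.update_self]
      · rw [Function.update_of_ne h4, Function.update_of_ne h4, c3 j h1 h3 h2, c2 j h1 h2,
          d2 j h3 h2, c0 j h1 h2]

end Pool.Agent.Helper78.CTR
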