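import Mathlib
import Pool.Agent.Helper53.CTR.Goals

/-!
# Project CTR, packet LBG: the step functions are linear space functions
-/

set_option autoImplicit false

namespace Pool.Agent.Helper78.CTR

open Pool.Agent.Helper53.CTR
open Pool.Agent.Helper1.TE (cif GoalLSD GoalLCT)
open Pool.Agent.Helper65.LinSpace (dig tab nrec ifz eq01 le01 lt01 capPow Ctx LS)

section

variable {γ : Type} [Ctx γ]

theorem cp2 {F : ℕ → ℕ → ℕ} (hF : LS (fun x : ℕ × ℕ => F x.1 x.2))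
    {f g : γ → ℕ} (hf : LS f) (hg : LS g) : LS (fun a => F (f a) (g a)) :=
  LS.comp (g := fun x : ℕ × ℕ => F x.1 x.2) (f := fun a => (f a, g a)) hF (LS.prodMk hf hg)

theorem cp4 {F : ℕ → ℕ → ℕ → ℕ → ℕ}
    (hF : LS (fun x : ℕ × ℕ × ℕ × ℕ => F x.1 x.2.1 x.2.2.1 x.2.2.2))
    {f g k l : γ → ℕ} (hf : LS f) (hg : LS g) (hk : LS k) (hl : LS l) :
    LS (fun a => F (f a) (g a) (k a) (l a)) :=
  LS.comp (g := fun x : ℕ × ℕ × ℕ × ℕ => F x.1 x.2.1 x.2.2.1 x.2.2.2)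
    (f := fun a => (f a, g a, k a, l a)) hF (LS.prodMk hf (LS.prodMk hg (LS.prodMk hk hl)))

theorem cp5 {F : ℕ → ℕ → ℕ → ℕ → ℕ → ℕ}
    (hF : LS (fun x : (ℕ × ℕ) × ℕ × ℕ × ℕ => F x.1.1 x.1.2 x.2.1 x.2.2.1 x.2.2.2))
    {f g k l m : γ → ℕ} (hf : LS f) (hg : LS g) (hk : LS k) (hl : LS l) (hm : LS m) :
    LS (fun a => F (f a) (g a) (k a) (l a) (m a)) :=
  LS.comp (g := fun x : (ℕ × ℕ) × ℕ × ℕ × ℕ => F x.1.1 x.1.2 x.2.1 x.2.2.1 x.2.2.2)
    (f := fun a => ((f a, g a), k a, l a, m a)) hF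
    (LS.prodMk (LS.prodMk hf hg) (LS.prodMk hk (LS.prodMk hl hm)))

theorem cp6 {F : ℕ → ℕ → ℕ → ℕ → ℕ → ℕ → ℕ}
    (hF : LS (fun x : (ℕ × ℕ) × ℕ × ℕ × ℕ × ℕ =>
      F x.1.1 x.1.2 x.2.1 x.2.2.1 x.2.2.2.1 x.2.2.2.2))
    {f g k l m n : γ → ℕ} (hf : LS f) (hg : LS g) (hk : LS k) (hl : LS l) (hm : LS m)
    (hn : LS n) : LS (fun a => F (f a) (g a) (k a) (l a) (m a) (n a)) :=
  LS.comp (g := fun x : (ℕ × ℕ) × ℕ × ℕ × ℕ × ℕ =>
      F x.1.1 x.1.2 x.2.1 x.2.2.1 x.2.2.2.1 x.2.2.2.2)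
    (f := fun a => ((f a, g a), k a, l a, m a, n a)) hF
    (LS.prodMk (LS.prodMk hf hg) (LS.prodMk hk (LS.prodMk hl (LS.prodMk hm hn))))

theorem ls_eqc {f : γ → ℕ} (hf : LS f) (n : ℕ) : LS (fun a => eq01 (f a) n) :=
  LS.eq01 hf (LS.const n)

theorem ls_alK {k : γ → ℕ} (hk : LS k) : LS (fun a => alK (k a)) :=
  LS.ifz (ls_eqc hk 6) (LS.ifz (LS.add (ls_eqc hk 3) (ls_eqc hk 4)) (LS.const 0) (LS.const 1))
    (LS.const 6)

theorem ls_beK {k : γ → ℕ} (hk : LS k) : LS (fun a => beK (k a)) :=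
  LS.ifz (ls_eqc hk 6) (LS.ifz (ls_eqc hk 4) (LS.const 0) (LS.const 3)) (LS.const 6)

theorem ls_actK {k : γ → ℕ} (hk : LS k) : LS (fun a => actK (k a)) :=
  LS.ifz (LS.add (LS.add (ls_eqc hk 1) (ls_eqc hk 5)) (ls_eqc hk 7)) (LS.const 1) (LS.const 0)

theorem ls_valK {k c a A t : γ → ℕ} (hk : LS k) (hc : LS c) (ha : LS a) (hA : LS A) (ht : LS t) :
    LS (fun z => valK (k z) (c z) (a z) (A z) (t z)) :=
  LS.ifz (ls_eqc hk 2) (LS.ifz (ls_eqc hk 3) ht ha) (LS.modPow (LS.const 2) hA hc)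

end

/-- the conclusion of LN -/
structure NR : Prop where
  Fb : LS (fun x : ℕ × ℕ => Fb x.1 x.2)
  Eb : LS (fun x : ℕ => Eb x)
  shC : LS (fun x : (ℕ × ℕ) × ℕ × ℕ × ℕ => shC x.1.1 x.1.2 x.2.1 x.2.2.1 x.2.2.2)
  apT : LS (fun x : (ℕ × ℕ) × ℕ × ℕ × ℕ => apT x.1.1 x.1.2 x.2.1 x.2.2.1 x.2.2.2)
  apX : LS (fun x : (ℕ × ℕ) × ℕ × ℕ × ℕ × ℕ => apX x.1.1 x.1.2 x.2.1 x.2.2.1 x.2.2.2.1 x.2.2.2.2)
  apS : LS (fun x : (ℕ × ℕ) × ℕ × ℕ × ℕ × ℕ => apS x.1.1 x.1.2 x.2.1 x.2.2.1 x.2.2.2.1 x.2.2.2.2)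
  setD : LS (fun x : (ℕ × ℕ) × ℕ × ℕ × ℕ × ℕ =>
    setD x.1.1 x.1.2 x.2.1 x.2.2.1 x.2.2.2.1 x.2.2.2.2)
  getD : LS (fun x : ℕ × ℕ × ℕ × ℕ => getD x.1 x.2.1 x.2.2.1 x.2.2.2)

section

variable {γ : Type} [Ctx γ] (R : NR) {h q b c W a y t X S A g : γ → ℕ} {D : γ → De}
  (hh : LS h) (hq : LS q) (hb : LS b) (hc : LS c) (hW : LS W) (hD : LS D) (ha : LS a) (hy : LS y)
  (ht : LS t) (hX : LS X) (hS : LS S) (hA : LS A) (hg : LS g)

theorem ls_k (hD : LS D) : LS (fun z => (D z).k) := LS.comp LS.fst hD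

theorem ls_2 (hD : LS D) : LS (fun z => (D z).2) := LS.comp LS.snd hD

theorem ls_22 (hD : LS D) : LS (fun z => (D z).2.2) := LS.comp LS.snd (ls_2 hD)

theorem ls_222 (hD : LS D) : LS (fun z => (D z).2.2.2) := LS.comp LS.snd (ls_22 hD)

theorem ls_2222 (hD : LS D) : LS (fun z => (D z).2.2.2.2) := LS.comp LS.snd (ls_222 hD)

theorem ls_e (hD : LS D) : LS (fun z => (D z).e) := by
  have h : LS (fun z => (D z).2.1) := LS.comp LS.fst (ls_2 hD)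
  exact h

theorem ls_f (hD : LS D) : LS (fun z => (D z).f) := by
  have h : LS (fun z => (D z).2.2.1) := LS.comp LS.fst (ls_22 hD)
  exact h

theorem ls_v (hD : LS D) : LS (fun z => (D z).v) := by
  have h : LS (fun z => (D z).2.2.2.1) := LS.comp LS.fst (ls_222 hD)
  exact h

theorem ls_i (hD : LS D) : LS (fun z => (D z).i) := by
  have h : LS (fun z => (D z).2.2.2.2.1) := LS.comp LS.fst (ls_2222 hD)
  exact h

theorem ls_T (hD : LS D) : LS (fun z => (D z).T) := by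
  have h : LS (fun z => (D z).2.2.2.2.2) := LS.comp LS.snd (ls_2222 hD)
  exact h

include R in
theorem ls_bigR (hq : LS q) (hb : LS b) (hW : LS W) (hD : LS D) (ha : LS a) (hy : LS y)
    (hX : LS X) : LS (fun z => bigR (q z) (b z) (W z) (D z) (a z) (y z) (X z)) := by
  have hE : LS (fun z => Eb (b z)) := LS.comp R.Eb hb
  have hm : LS (fun z => 2 * q z + 3) := LS.add (LS.mul (LS.const 2) hq) (LS.const 3)
  have g1 : LS (fun z => getD (W z) (Eb (b z)) (X z) (D z).e) := cp4 R.getD hW hE hX (ls_e hD)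
  have s1 : LS (fun z => shC (b z) (W z) (alK (D z).k) (a z)
      (getD (W z) (Eb (b z)) (X z) (D z).e)) := cp5 R.shC hb hW (ls_alK (ls_k hD)) ha g1
  have d1 : LS (fun z => setD (W z) (Eb (b z)) (2 * q z + 3) (X z) (D z).e
      (shC (b z) (W z) (alK (D z).k) (a z) (getD (W z) (Eb (b z)) (X z) (D z).e))) :=
    cp6 R.setD hW hE hm hX (ls_e hD) s1
  have g2 := cp4 R.getD hW hE d1 (ls_f hD)
  have s2 := cp5 R.shC hb hW (ls_beK (ls_k hD)) hy g2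
  exact cp6 R.setD hW hE hm d1 (ls_f hD) s2

include R in
theorem ls_bigT (hb : LS b) (hc : LS c) (hW : LS W) (hD : LS D) (ha : LS a) (ht : LS t)
    (hX : LS X) (hA : LS A) :
    LS (fun z => bigT (b z) (c z) (W z) (D z) (a z) (t z) (X z) (A z)) := by
  have hE : LS (fun z => Eb (b z)) := LS.comp R.Eb hb
  have g1 : LS (fun z => getD (W z) (Eb (b z)) (X z) (D z).i) := cp4 R.getD hW hE hX (ls_i hD)
  have e1 : LS (fun z => 1 - eq01 (D z).k 6 * (1 - eq01 (a z % 2 ^ c z) (A z % 2 ^ c z))) :=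
    LS.sub (LS.const 1) (LS.mul (ls_eqc (ls_k hD) 6) (LS.sub (LS.const 1)
      (LS.eq01 (LS.modPow (LS.const 2) ha hc) (LS.modPow (LS.const 2) hA hc))))
  exact LS.ifz (ls_actK (ls_k hD)) (LS.const 1) (LS.mul e1
    (cp5 R.apT hb hW (ls_T hD) (ls_valK (ls_k hD) hc ha hA ht) g1))

include R in
theorem ls_bigX (hh : LS h) (hq : LS q) (hb : LS b) (hc : LS c) (hW : LS W) (hD : LS D)
    (ha : LS a) (hy : LS y) (ht : LS t) (hX : LS X) (hS : LS S) (hA : LS A) :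
    LS (fun z => bigX (h z) (q z) (b z) (c z) (W z) (D z) (a z) (y z) (t z) (X z) (S z)
      (A z)) := by
  have hE : LS (fun z => Eb (b z)) := LS.comp R.Eb hb
  have hF : LS (fun z => Fb (h z) (b z)) := cp2 R.Fb hh hb
  have hm : LS (fun z => 2 * q z + 3) := LS.add (LS.mul (LS.const 2) hq) (LS.const 3)
  have g1 : LS (fun z => getD (W z) (Eb (b z)) (X z) (D z).i) := cp4 R.getD hW hE hX (ls_i hD)
  have g2 : LS (fun z => getD (W z) (Fb (h z) (b z)) (S z) (D z).i) :=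
    cp4 R.getD hW hF hS (ls_i hD)
  exact LS.ifz (ls_actK (ls_k hD)) hX (cp6 R.setD hW hE hm
    (ls_bigR R hq hb hW hD ha hy hX) (ls_i hD)
    (cp6 R.apX hb hW (ls_T hD) (ls_valK (ls_k hD) hc ha hA ht) g1 g2))

include R in
theorem ls_bigS (hh : LS h) (hq : LS q) (hb : LS b) (hc : LS c) (hW : LS W) (hD : LS D)
    (ha : LS a) (ht : LS t) (hX : LS X) (hS : LS S) (hA : LS A) :
    LS (fun z => bigS (h z) (q z) (b z) (c z) (W z) (D z) (a z) (t z) (X z) (S z)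
      (A z)) := by
  have hE : LS (fun z => Eb (b z)) := LS.comp R.Eb hb
  have hF : LS (fun z => Fb (h z) (b z)) := cp2 R.Fb hh hb
  have hm : LS (fun z => 2 * q z + 3) := LS.add (LS.mul (LS.const 2) hq) (LS.const 3)
  have g1 : LS (fun z => getD (W z) (Eb (b z)) (X z) (D z).i) := cp4 R.getD hW hE hX (ls_i hD)
  have g2 : LS (fun z => getD (W z) (Fb (h z) (b z)) (S z) (D z).i) :=
    cp4 R.getD hW hF hS (ls_i hD)
  exact LS.ifz (ls_actK (ls_k hD)) hS (cp6 R.setD hW hF hm hS (ls_i hD)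
    (cp6 R.apS hb hW (ls_T hD) (ls_valK (ls_k hD) hc ha hA ht) g1 g2))

theorem ls_bigA (hc : LS c) (hW : LS W) (hD : LS D) (ha : LS a) (hA : LS A) :
    LS (fun z => bigA (c z) (W z) (D z) (a z) (A z)) :=
  LS.ifz (ls_eqc (ls_k hD) 5) (LS.ifz (ls_eqc (ls_k hD) 7) hA (LS.divPow (LS.const 2) hA hc))
    (LS.add (LS.mul hA (LS.capPow (LS.const 2) hc hW)) (LS.modPow (LS.const 2) ha hc))

theorem ls_blkM (hb : LS b) (hc : LS c) (hW : LS W) (hD : LS D) (hA : LS A) (hg : LS g) :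
    LS (fun z => blkM (b z) (c z) (W z) (D z) (A z) (g z)) :=
  LS.add (LS.mul (ls_v hD) (LS.capPow (LS.const 4) hb hW))
    (LS.ifz (ls_k hD) (LS.mul (LS.capPow (LS.const 2) hb hW) (LS.modPow (LS.const 2) hA hc)) hg)

end

/-- **Packet LBG.** -/
theorem gLBG : GoalLBG := by
  intro hLN h1 h2
  obtain ⟨-, a1, a2, -, a3, a4, a5, a6, a7, a8⟩ := hLN h1 h2
  have R : NR := ⟨a1, a2, a3, a4, a5, a6, a7, a8⟩
  have hh : LS (fun x : BigIn => x.1.1) := by fun_prop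
  have hq : LS (fun x : BigIn => x.1.2.1) := by fun_prop
  have hb : LS (fun x : BigIn => x.1.2.2.1) := by fun_prop
  have hc : LS (fun x : BigIn => x.1.2.2.2.1) := by fun_prop
  have hW : LS (fun x : BigIn => x.1.2.2.2.2) := by fun_prop
  have hD : LS (fun x : BigIn => x.2.1) := by fun_prop
  have ha : LS (fun x : BigIn => x.2.2.1.1) := by fun_prop
  have hy : LS (fun x : BigIn => x.2.2.1.2.1) := by fun_prop
  have ht : LS (fun x : BigIn => x.2.2.1.2.2) := by fun_prop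
  have hX : LS (fun x : BigIn => x.2.2.2.1) := by fun_prop
  have hS : LS (fun x : BigIn => x.2.2.2.2.1) := by fun_prop
  have hA : LS (fun x : BigIn => x.2.2.2.2.2) := by fun_prop
  exact ⟨ls_bigT R hb hc hW hD ha ht hX hA, ls_bigX R hh hq hb hc hW hD ha hy ht hX hS hA,
    ls_bigS R hh hq hb hc hW hD ha ht hX hS hA, ls_bigA hc hW hD ha hA,
    ls_blkM hb hc hW hD hA ha⟩

end Pool.Agent.Helper78.CTR
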